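import Mathlib

/-!
# Dense lines of corner-free sets over `F_2`
-/

namespace Pool.Agent.P8H93.DL

open Finset Module

/-- corner-free sets in `G × G` -/
def CF {G : Type*} [AddCommGroup G] (A : Finset (G × G)) : Prop :=
  ∀ x y z : G, z ≠ 0 → ¬ ((x, y) ∈ A ∧ (x, y + z) ∈ A ∧ (x + z, y) ∈ A)

lemma zmod2 (c : ZMod 2) : c = 0 ∨ c = 1 := by revert c; decide

section flats

variable {G : Type*} [AddCommGroup G] [Module (ZMod 2) G] [Fintype G] [DecidableEq G]

omit [Fintype G] [DecidableEq G] in
lemma add_self' (z : G) : z + z = 0 := by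
  have h : (2 : ZMod 2) • z = z + z := two_smul (ZMod 2) z
  rw [← h]
  have : (2 : ZMod 2) = 0 := by decide
  rw [this, zero_smul]

omit [DecidableEq G] in
lemma card_span_sup (S : Submodule (ZMod 2) G) (z : G) :
    Nat.card (S ⊔ Submodule.span (ZMod 2) {z} : Submodule (ZMod 2) G) ≤ 2 * Nat.card S := by
  classical
  have h1 : finrank (ZMod 2) (S ⊔ Submodule.span (ZMod 2) {z} : Submodule (ZMod 2) G) ≤
      finrank (ZMod 2) S + 1 := by
    refine (Submodule.finrank_add_le_finrank_add_finrank _ _).trans ?_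
    have : finrank (ZMod 2) (Submodule.span (ZMod 2) {z}) ≤ 1 := by
      simpa using finrank_span_le_card (R := ZMod 2) ({z} : Set G)
    omega
  have h2 : ∀ T : Submodule (ZMod 2) G, Nat.card T = 2 ^ finrank (ZMod 2) T := by
    intro T
    have := Module.natCard_eq_pow_finrank (K := ZMod 2) (V := T)
    rwa [Nat.card_zmod] at this
  rw [h2, h2, ← pow_succ']
  exact Nat.pow_le_pow_right (by norm_num) h1

/-- one step: a popular difference outside `S` -/
lemma popular (S : Submodule (ZMod 2) G) (X : Finset G) (hX : 2 * Nat.card S ≤ X.card) :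
    ∃ z : G, z ∉ S ∧ X.card ^ 2 ≤ 2 * Fintype.card G * (X.filter fun x => x + z ∈ X).card := by
  classical
  by_contra hcon
  push Not at hcon
  have hS : 1 ≤ Nat.card S := Nat.one_le_iff_ne_zero.2 (Nat.card_ne_zero.2 ⟨⟨0⟩, inferInstance⟩)
  -- double count pairs
  have h1 : ∑ z : G, (X.filter fun x => x + z ∈ X).card = X.card ^ 2 := by
    have : ∀ z : G, (X.filter fun x => x + z ∈ X).card = ∑ x ∈ X, if x + z ∈ X then 1 else 0 := by
      intro z; rw [card_filter]
    simp_rw [this]
    rw [sum_comm]
    have : ∀ x ∈ X, (∑ z : G, if x + z ∈ X then 1 else 0) = X.card := by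
      intro x _
      rw [← card_filter]
      refine card_bij (fun z _ => x + z) (by simp) (by simp) ?_
      intro b hb
      exact ⟨b - x, by simp [hb], by simp⟩
    rw [sum_congr rfl this, sum_const, smul_eq_mul, sq]
  have h2 : ∑ z : G, (X.filter fun x => x + z ∈ X).card =
      ∑ z ∈ univ.filter (fun z => z ∈ S), (X.filter fun x => x + z ∈ X).card +
      ∑ z ∈ univ.filter (fun z => ¬ z ∈ S), (X.filter fun x => x + z ∈ X).card :=
    (sum_filter_add_sum_filter_not _ _ _).symm
  have h3 : ∑ z ∈ univ.filter (fun z => z ∈ S), (X.filter fun x => x + z ∈ X).card ≤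
      Nat.card S * X.card := by
    refine (sum_le_sum fun z _ => card_filter_le _ _).trans ?_
    rw [sum_const, smul_eq_mul]
    refine Nat.mul_le_mul_right _ (le_of_eq ?_)
    rw [Nat.card_eq_fintype_card]
    exact (Fintype.card_subtype _).symm
  have hN : 0 < Fintype.card G := Fintype.card_pos
  -- the non-`S` part
  have h4 : 2 * Fintype.card G * ∑ z ∈ univ.filter (fun z => ¬ z ∈ S),
      (X.filter fun x => x + z ∈ X).card < Fintype.card G * X.card ^ 2 := by
    have hXpos : 0 < X.card := by omega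
    rw [mul_sum]
    by_cases hne : (univ.filter (fun z : G => ¬ z ∈ S)).Nonempty
    · calc ∑ z ∈ univ.filter (fun z => ¬ z ∈ S),
          2 * Fintype.card G * (X.filter fun x => x + z ∈ X).card
          < ∑ z ∈ univ.filter (fun z : G => ¬ z ∈ S), X.card ^ 2 := by
            refine sum_lt_sum_of_nonempty hne fun z hz => hcon z ?_
            simpa using hz
        _ ≤ ∑ z : G, X.card ^ 2 := sum_le_sum_of_subset (filter_subset _ _)
        _ = Fintype.card G * X.card ^ 2 := by simp
    · rw [not_nonempty_iff_eq_empty.1 hne]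
      simp only [sum_empty]
      positivity
  have h5 : 2 * X.card ^ 2 ≤ 2 * (Nat.card S * X.card) +
      2 * ∑ z ∈ univ.filter (fun z => ¬ z ∈ S), (X.filter fun x => x + z ∈ X).card := by
    rw [← h1]
    rw [h2]
    omega
  have h6 : 2 * (Nat.card S * X.card) ≤ X.card ^ 2 := by
    rw [sq, ← mul_assoc]
    exact Nat.mul_le_mul_right _ hX
  have h7 : X.card ^ 2 ≤ 2 * ∑ z ∈ univ.filter (fun z => ¬ z ∈ S),
      (X.filter fun x => x + z ∈ X).card := by omega
  have h8 := Nat.mul_le_mul_left (Fintype.card G) h7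
  nlinarith

/-- Large sets contain `(u+1)`-dimensional affine subspaces, with directions outside `S`. -/
lemma exists_flat (u : ℕ) : ∀ (S : Submodule (ZMod 2) G) (X : Finset G),
    2 ^ u * Nat.card S * (2 * Fintype.card G) ^ (2 ^ u) ≤ Fintype.card G * X.card ^ (2 ^ u) →
    ∃ U : Submodule (ZMod 2) G, finrank (ZMod 2) U = u + 1 ∧ U ⊓ S = ⊥ ∧
      ∃ x0 : G, ∀ w ∈ U, x0 + w ∈ X := by
  classical
  induction u with
  | zero =>
    intro S X h
    have hN : 0 < Fintype.card G := Fintype.card_pos
    have h' : 2 * Nat.card S ≤ X.card := by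
      simp only [pow_zero, one_mul, pow_one] at h
      have : Fintype.card G * (2 * Nat.card S) ≤ Fintype.card G * X.card := by nlinarith
      exact Nat.le_of_mul_le_mul_left this hN
    obtain ⟨z, hz, hc⟩ := popular S X h'
    have hS : 1 ≤ Nat.card S :=
      Nat.one_le_iff_ne_zero.2 (Nat.card_ne_zero.2 ⟨⟨0⟩, inferInstance⟩)
    have hne : (X.filter fun x => x + z ∈ X).Nonempty := by
      rw [nonempty_iff_ne_empty]
      intro h0
      rw [h0, card_empty, mul_zero] at hc
      have : X.card = 0 := by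
        have := Nat.le_zero.1 hc
        exact pow_eq_zero_iff (two_ne_zero) |>.1 this
      omega
    obtain ⟨x0, hx0⟩ := hne
    rw [mem_filter] at hx0
    have hz0 : z ≠ 0 := fun h0 => hz (h0 ▸ S.zero_mem)
    refine ⟨Submodule.span (ZMod 2) {z}, by simpa using finrank_span_singleton hz0, ?_, x0, ?_⟩
    · rw [Submodule.eq_bot_iff]
      intro w hw
      rw [Submodule.mem_inf, Submodule.mem_span_singleton] at hw
      obtain ⟨⟨c, rfl⟩, hw⟩ := hw
      rcases zmod2 c with rfl | rfl
      · simp
      · exact absurd (by simpa using hw) hz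
    · intro w hw
      rw [Submodule.mem_span_singleton] at hw
      obtain ⟨c, rfl⟩ := hw
      rcases zmod2 c with rfl | rfl
      · simpa using hx0.1
      · simpa using hx0.2
  | succ u ih =>
    intro S X h
    have hN : 0 < Fintype.card G := Fintype.card_pos
    have hXN : X.card ≤ Fintype.card G := card_le_univ X
    have hS : 1 ≤ Nat.card S :=
      Nat.one_le_iff_ne_zero.2 (Nat.card_ne_zero.2 ⟨⟨0⟩, inferInstance⟩)
    have h' : 2 * Nat.card S ≤ X.card := by
      -- `X^K N ≥ 2^(u+1) s (2N)^K`, `K = 2^(u+1)`, and `X ≤ N`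
      obtain ⟨K, hK⟩ : ∃ K, 2 ^ (u + 1) = K + 1 :=
        ⟨2 ^ (u + 1) - 1, by have := Nat.one_le_two_pow (n := u + 1); omega⟩
      have e1 : Fintype.card G * X.card ^ (K + 1) ≤
          Fintype.card G * (X.card * Fintype.card G ^ K) := by
        refine Nat.mul_le_mul_left _ ?_
        rw [pow_succ']
        exact Nat.mul_le_mul_left _ (Nat.pow_le_pow_left hXN K)
      have e2 : 2 * Nat.card S * (Fintype.card G ^ (K + 1)) ≤
          2 ^ (u + 1) * Nat.card S * (2 * Fintype.card G) ^ (2 ^ (u + 1)) := by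
        rw [hK]
        refine Nat.mul_le_mul ?_ (Nat.pow_le_pow_left (by omega) _)
        refine Nat.mul_le_mul_right _ ?_
        omega
      have e3 : 2 * Nat.card S * (Fintype.card G ^ (K + 1)) ≤
          X.card * Fintype.card G ^ (K + 1) := by
        refine e2.trans (h.trans ?_)
        rw [hK]
        refine e1.trans (le_of_eq ?_)
        rw [pow_succ]; ring
      exact Nat.le_of_mul_le_mul_right e3 (pow_pos hN _)
    obtain ⟨z, hz, hc⟩ := popular S X h'
    set X' := X.filter fun x => x + z ∈ X with hX'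
    set S' : Submodule (ZMod 2) G := S ⊔ Submodule.span (ZMod 2) {z} with hS'
    have hs' : Nat.card S' ≤ 2 * Nat.card S := card_span_sup S z
    have key : 2 ^ u * Nat.card S' * (2 * Fintype.card G) ^ (2 ^ u) ≤
        Fintype.card G * X'.card ^ (2 ^ u) := by
      have h1 : 2 ^ u * Nat.card S' * (2 * Fintype.card G) ^ (2 ^ u) ≤
          2 ^ (u + 1) * Nat.card S * (2 * Fintype.card G) ^ (2 ^ u) := by
        refine Nat.mul_le_mul_right _ ?_
        calc 2 ^ u * Nat.card S' ≤ 2 ^ u * (2 * Nat.card S) := Nat.mul_le_mul_left _ hs'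
          _ = 2 ^ (u + 1) * Nat.card S := by rw [pow_succ]; ring
      refine h1.trans ?_
      have h2 : (X.card ^ 2) ^ (2 ^ u) ≤ (2 * Fintype.card G * X'.card) ^ (2 ^ u) :=
        Nat.pow_le_pow_left hc _
      have h3 : X.card ^ (2 ^ (u + 1)) ≤
          (2 * Fintype.card G) ^ (2 ^ u) * X'.card ^ (2 ^ u) := by
        rw [pow_succ', pow_mul, ← mul_pow]; exact h2
      have h4 : (2 * Fintype.card G) ^ (2 ^ u) *
          (2 ^ (u + 1) * Nat.card S * (2 * Fintype.card G) ^ (2 ^ u)) ≤
          (2 * Fintype.card G) ^ (2 ^ u) * (Fintype.card G * X'.card ^ (2 ^ u)) := by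
        calc (2 * Fintype.card G) ^ (2 ^ u) *
          (2 ^ (u + 1) * Nat.card S * (2 * Fintype.card G) ^ (2 ^ u))
            = 2 ^ (u + 1) * Nat.card S * (2 * Fintype.card G) ^ (2 ^ (u + 1)) := by
              rw [pow_succ 2 u, pow_mul (2 * Fintype.card G)]; ring
          _ ≤ Fintype.card G * X.card ^ (2 ^ (u + 1)) := h
          _ ≤ Fintype.card G * ((2 * Fintype.card G) ^ (2 ^ u) * X'.card ^ (2 ^ u)) :=
              Nat.mul_le_mul_left _ h3
          _ = _ := by ring
      exact Nat.le_of_mul_le_mul_left h4 (by positivity)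
    obtain ⟨U, hU1, hU2, x0, hx0⟩ := ih S' X' key
    have hzU : z ∉ U := by
      intro hzU
      have : z ∈ U ⊓ S' := ⟨hzU, Submodule.mem_sup_right (Submodule.mem_span_singleton_self z)⟩
      rw [hU2, Submodule.mem_bot] at this
      exact hz (this ▸ S.zero_mem)
    have hz0 : z ≠ 0 := fun h0 => hz (h0 ▸ S.zero_mem)
    refine ⟨U ⊔ Submodule.span (ZMod 2) {z}, ?_, ?_, x0, ?_⟩
    · have hd : U ⊓ Submodule.span (ZMod 2) {z} = ⊥ := by
        rw [Submodule.eq_bot_iff]
        intro w hw
        rw [Submodule.mem_inf, Submodule.mem_span_singleton] at hw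
        obtain ⟨hw, c, rfl⟩ := hw
        rcases zmod2 c with rfl | rfl
        · simp
        · exact absurd (by simpa using hw) hzU
      have := Submodule.finrank_sup_add_finrank_inf_eq U (Submodule.span (ZMod 2) {z})
      rw [hd, finrank_bot, add_zero, hU1, finrank_span_singleton hz0] at this
      exact this
    · rw [Submodule.eq_bot_iff]
      intro w hw
      rw [Submodule.mem_inf, Submodule.mem_sup] at hw
      obtain ⟨⟨v, hv, t, ht, rfl⟩, hw⟩ := hw
      have hv' : v ∈ U ⊓ S' := by
        refine ⟨hv, ?_⟩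
        have : v = (v + t) + t := by rw [add_assoc, add_self', add_zero]
        rw [this]
        exact add_mem (Submodule.mem_sup_left hw) (Submodule.mem_sup_right ht)
      rw [hU2, Submodule.mem_bot] at hv'
      subst hv'
      rw [zero_add] at hw ⊢
      rw [Submodule.mem_span_singleton] at ht
      obtain ⟨c, rfl⟩ := ht
      rcases zmod2 c with rfl | rfl
      · simp
      · exact absurd (by simpa using hw) hz
    · intro w hw
      rw [Submodule.mem_sup] at hw
      obtain ⟨v, hv, t, ht, rfl⟩ := hw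
      have h1 := hx0 v hv
      rw [hX', mem_filter] at h1
      rw [Submodule.mem_span_singleton] at ht
      obtain ⟨c, rfl⟩ := ht
      rcases zmod2 c with rfl | rfl
      · simpa using h1.1
      · simpa [add_assoc] using h1.2

end flats

end Pool.Agent.P8H93.DL
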