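import Pool.Agent.P8H93.DL

/-!
# Dense rows and dense cells of corner-free sets over `F_2`
-/

namespace Pool.Agent.P8H93.DL

open Finset Module

/-- every corner-free subset of `(F_2^u)^2` has fewer than `δ 4^u` points -/
def Small (u : ℕ) (δ : ℝ) : Prop :=
  ∀ B : Finset ((Fin u → ZMod 2) × (Fin u → ZMod 2)), CF B → (B.card : ℝ) < δ * 4 ^ u

section rows

variable {G : Type*} [AddCommGroup G] [Module (ZMod 2) G] [Fintype G] [DecidableEq G]

/-- number of points of `A` in the row of `x` -/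
def rowCard (A : Finset (G × G)) (x : G) : ℕ := (univ.filter fun y => (x, y) ∈ A).card

lemma no_flat {u : ℕ} {δ : ℝ} (h : Small u δ) (A : Finset (G × G)) (hA : CF A)
    (U : Submodule (ZMod 2) G) (hU : finrank (ZMod 2) U = u) (x0 : G) :
    ¬ ∀ w ∈ U, δ * Fintype.card G ≤ rowCard A (x0 + w) := by
  classical
  intro hd
  have hfr : finrank (ZMod 2) (Fin u → ZMod 2) = finrank (ZMod 2) U := by
    rw [hU]; simp
  let e : (Fin u → ZMod 2) ≃ₗ[ZMod 2] U := LinearEquiv.ofFinrankEq _ _ hfr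
  let B : G → Finset ((Fin u → ZMod 2) × (Fin u → ZMod 2)) := fun y0 =>
    univ.filter fun p => (x0 + (e p.1 : G), y0 + (e p.2 : G)) ∈ A
  have hB : ∀ y0, CF (B y0) := by
    intro y0 x y z hz ⟨h1, h2, h3⟩
    simp only [B, mem_filter, mem_univ, true_and, map_add, Submodule.coe_add] at h1 h2 h3
    refine hA (x0 + (e x : G)) (y0 + (e y : G)) (e z : G) ?_ ⟨h1, ?_, ?_⟩
    · intro h0
      apply hz
      have : e z = 0 := Subtype.ext h0
      simpa using this
    · rwa [add_assoc]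
    · rwa [add_assoc]
  have hsum : ∑ y0 : G, ((B y0).card : ℝ) =
      ∑ p : (Fin u → ZMod 2) × (Fin u → ZMod 2), (rowCard A (x0 + (e p.1 : G)) : ℝ) := by
    have h1 : ∀ y0, ((B y0).card : ℝ) = ∑ p : (Fin u → ZMod 2) × (Fin u → ZMod 2),
        if (x0 + (e p.1 : G), y0 + (e p.2 : G)) ∈ A then (1 : ℝ) else 0 := by
      intro y0
      rw [card_filter]; push_cast; rfl
    simp_rw [h1]
    rw [sum_comm]
    refine sum_congr rfl fun p _ => ?_
    rw [rowCard, card_filter]
    push_cast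
    exact Fintype.sum_equiv (Equiv.addRight (e p.2 : G)) _ _ (fun y => rfl)
  have hcardp : ((univ : Finset ((Fin u → ZMod 2) × (Fin u → ZMod 2))).card : ℝ) = 4 ^ u := by
    rw [card_univ, Fintype.card_prod]
    simp only [Fintype.card_pi, ZMod.card, prod_const, card_univ, Fintype.card_fin]
    push_cast
    rw [← mul_pow]; norm_num
  have hge : (4 ^ u : ℝ) * (δ * Fintype.card G) ≤ ∑ y0 : G, ((B y0).card : ℝ) := by
    rw [hsum, ← hcardp, ← nsmul_eq_mul, ← sum_const]
    exact sum_le_sum fun p _ => hd _ (e p.1).2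
  have hlt : ∑ y0 : G, ((B y0).card : ℝ) < ∑ _y0 : G, δ * 4 ^ u :=
    sum_lt_sum_of_nonempty univ_nonempty fun y0 _ => h _ (hB y0)
  rw [sum_const, card_univ, nsmul_eq_mul] at hlt
  nlinarith

/-- Few dense rows. -/
lemma dense_rows {u : ℕ} {δ : ℝ} (h : Small (u + 1) δ) (A : Finset (G × G)) (hA : CF A) :
    ((univ.filter fun x => δ * Fintype.card G ≤ rowCard A x).card : ℝ) ≤
      4 * (Fintype.card G : ℝ) ^ (1 - (1 : ℝ) / 2 ^ u) := by
  classical
  set X := univ.filter fun x => δ * Fintype.card G ≤ rowCard A x with hX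
  have hN : 0 < Fintype.card G := Fintype.card_pos
  have hNR : (0 : ℝ) < Fintype.card G := by exact_mod_cast hN
  have key : Fintype.card G * X.card ^ (2 ^ u) <
      2 ^ u * (2 * Fintype.card G) ^ (2 ^ u) := by
    by_contra hcon
    push Not at hcon
    obtain ⟨U, hU, -, x0, hx0⟩ := exists_flat u (⊥ : Submodule (ZMod 2) G) X (by simpa using hcon)
    refine no_flat h A hA U hU x0 fun w hw => ?_
    have := hx0 w hw
    rw [hX, mem_filter] at this
    exact this.2
  have hK : (0 : ℝ) < 2 ^ u := by positivity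
  have key2 : Fintype.card G * X.card ^ (2 ^ u) ≤ (4 * Fintype.card G) ^ (2 ^ u) := by
    refine key.le.trans ?_
    have : (4 * Fintype.card G) ^ (2 ^ u) = 2 ^ (2 ^ u) * (2 * Fintype.card G) ^ (2 ^ u) := by
      rw [← mul_pow]; congr 1; ring
    rw [this]
    exact Nat.mul_le_mul_right _ (Nat.pow_le_pow_right (by norm_num) (Nat.lt_two_pow_self).le)
  have key3 : (Fintype.card G : ℝ) * (X.card : ℝ) ^ (2 ^ u) ≤ (4 * Fintype.card G) ^ (2 ^ u) := by
    exact_mod_cast key2
  have hp : ((4 * (Fintype.card G : ℝ) ^ (1 - (1 : ℝ) / 2 ^ u)) ^ (2 ^ u) : ℝ) *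
      Fintype.card G = (4 * Fintype.card G) ^ (2 ^ u) := by
    rw [mul_pow, mul_pow, mul_assoc]
    congr 1
    have e1 : ((Fintype.card G : ℝ) ^ (1 - (1 : ℝ) / 2 ^ u)) ^ (2 ^ u) =
        (Fintype.card G : ℝ) ^ ((1 - (1 : ℝ) / 2 ^ u) * (2 ^ u : ℕ)) := by
      rw [Real.rpow_mul hNR.le, Real.rpow_natCast]
    rw [e1]
    have e2 : (1 - (1 : ℝ) / 2 ^ u) * ((2 ^ u : ℕ) : ℝ) = ((2 ^ u : ℕ) : ℝ) - 1 := by
      push_cast
      field_simp
    rw [e2, Real.rpow_sub hNR, Real.rpow_one, Real.rpow_natCast]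
    field_simp
  have key4 : (X.card : ℝ) ^ (2 ^ u) ≤ (4 * (Fintype.card G : ℝ) ^ (1 - (1 : ℝ) / 2 ^ u)) ^ (2 ^ u) := by
    have : (X.card : ℝ) ^ (2 ^ u) * Fintype.card G ≤
        (4 * (Fintype.card G : ℝ) ^ (1 - (1 : ℝ) / 2 ^ u)) ^ (2 ^ u) * Fintype.card G := by
      rw [hp]; linarith
    exact le_of_mul_le_mul_right this hNR
  exact le_of_pow_le_pow_left₀ (by positivity) (by positivity) key4

/-- the points of `A` that lie in a `δ`-dense row -/
lemma dense_points {u : ℕ} {δ : ℝ} (h : Small (u + 1) δ) (A : Finset (G × G)) (hA : CF A) :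
    ((A.filter fun p => δ * Fintype.card G ≤ rowCard A p.1).card : ℝ) ≤
      4 * (Fintype.card G : ℝ) ^ (2 - (1 : ℝ) / 2 ^ u) := by
  classical
  have hN : 0 < Fintype.card G := Fintype.card_pos
  have hNR : (0 : ℝ) < Fintype.card G := by exact_mod_cast hN
  set X := univ.filter fun x => δ * Fintype.card G ≤ rowCard A x with hX
  have h1 : (A.filter fun p => δ * Fintype.card G ≤ rowCard A p.1) ⊆ X ×ˢ (univ : Finset G) := by
    intro p hp
    rw [mem_filter] at hp
    rw [mem_product, hX, mem_filter]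
    exact ⟨⟨mem_univ _, hp.2⟩, mem_univ _⟩
  have h2 := card_le_card h1
  rw [card_product, card_univ] at h2
  have h3 := dense_rows h A hA
  rw [← hX] at h3
  calc ((A.filter fun p => δ * Fintype.card G ≤ rowCard A p.1).card : ℝ)
      ≤ (X.card : ℝ) * Fintype.card G := by exact_mod_cast h2
    _ ≤ 4 * (Fintype.card G : ℝ) ^ (1 - (1 : ℝ) / 2 ^ u) * Fintype.card G :=
        mul_le_mul_of_nonneg_right h3 hNR.le
    _ = 4 * (Fintype.card G : ℝ) ^ (2 - (1 : ℝ) / 2 ^ u) := by
        have : (2 : ℝ) - (1 : ℝ) / 2 ^ u = (1 - (1 : ℝ) / 2 ^ u) + 1 := by ring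
        rw [this, Real.rpow_add hNR, Real.rpow_one]; ring

end rows

section cells

variable {V : Type*} [AddCommGroup V] [Module (ZMod 2) V] [Fintype V] [DecidableEq V]

/-- number of points of `A` in the cell `{p.1} × (p.2 + W)` -/
noncomputable def cellCard (A : Finset (V × V)) (W : Submodule (ZMod 2) V) (p : V × V) : ℕ :=
  Nat.card {w : W // (p.1, p.2 + (w : V)) ∈ A}

lemma cell_points {u : ℕ} {δ : ℝ} (h : Small (u + 1) δ) (A : Finset (V × V)) (hA : CF A)
    (W : Submodule (ZMod 2) V) :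
    (((A : Set (V × V)) ∩ {p | δ * Nat.card W ≤ cellCard A W p}).ncard : ℝ) ≤
      4 * (Fintype.card V : ℝ) ^ 2 * (Nat.card W : ℝ) ^ (-(1 : ℝ) / 2 ^ u) := by
  classical
  have : Fintype W := Fintype.ofFinite W
  set D : Finset (V × V) := A.filter fun p => δ * Nat.card W ≤ cellCard A W p with hD
  have hDset : (A : Set (V × V)) ∩ {p | δ * Nat.card W ≤ cellCard A W p} = (D : Set (V × V)) := by
    ext p; simp [hD]
  rw [hDset, Set.ncard_coe_finset]
  have hWc : Nat.card W = Fintype.card W := Nat.card_eq_fintype_card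
  have hWpos : (0 : ℝ) < Fintype.card W := by exact_mod_cast Fintype.card_pos
  -- local pictures
  let A' : V × V → Finset (W × W) := fun o =>
    univ.filter fun q => (o.1 + (q.1 : V), o.2 + (q.2 : V)) ∈ A
  let D' : V × V → Finset (W × W) := fun o =>
    univ.filter fun q => (o.1 + (q.1 : V), o.2 + (q.2 : V)) ∈ D
  have hA' : ∀ o, CF (A' o) := by
    intro o x y z hz ⟨h1, h2, h3⟩
    simp only [A', mem_filter, mem_univ, true_and, Submodule.coe_add] at h1 h2 h3
    refine hA (o.1 + (x : V)) (o.2 + (y : V)) (z : V) ?_ ⟨h1, ?_, ?_⟩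
    · intro h0; exact hz (Subtype.ext h0)
    · rwa [add_assoc]
    · rwa [add_assoc]
  have hsub : ∀ o, D' o ⊆ (A' o).filter fun q => δ * Fintype.card W ≤ rowCard (A' o) q.1 := by
    intro o q hq
    simp only [D', mem_filter, mem_univ, true_and, hD] at hq
    rw [mem_filter]
    refine ⟨by simpa [A'] using hq.1, ?_⟩
    have h1 := hq.2
    rw [hWc] at h1
    refine h1.trans (le_of_eq ?_)
    have h2 : cellCard A W (o.1 + (q.1 : V), o.2 + (q.2 : V)) = rowCard (A' o) q.1 := by
      rw [cellCard, rowCard, Nat.card_eq_fintype_card, Fintype.card_subtype]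
      refine card_bij (fun w _ => q.2 + w) ?_ ?_ ?_
      · intro w hw
        simp only [mem_filter, mem_univ, true_and, A', Submodule.coe_add] at hw ⊢
        rwa [← add_assoc]
      · intro a _ b _ hab
        exact add_left_cancel hab
      · intro b hb
        simp only [mem_filter, mem_univ, true_and, A'] at hb
        refine ⟨b - q.2, ?_, by simp⟩
        simp only [mem_filter, mem_univ, true_and, Submodule.coe_sub]
        rw [add_assoc, add_sub_cancel]
        exact hb
    exact_mod_cast h2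
  have hbound : ∀ o, ((D' o).card : ℝ) ≤ 4 * (Fintype.card W : ℝ) ^ (2 - (1 : ℝ) / 2 ^ u) := by
    intro o
    refine le_trans ?_ (dense_points h (A' o) (hA' o))
    exact_mod_cast card_le_card (hsub o)
  have hsum : ∑ o : V × V, ((D' o).card : ℝ) = (Fintype.card W : ℝ) ^ 2 * D.card := by
    have h1 : ∀ o, ((D' o).card : ℝ) = ∑ q : W × W,
        if (o.1 + (q.1 : V), o.2 + (q.2 : V)) ∈ D then (1 : ℝ) else 0 := by
      intro o
      rw [card_filter]; push_cast; rfl
    simp_rw [h1]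
    rw [sum_comm]
    have h2 : ∀ q : W × W, (∑ o : V × V,
        if (o.1 + (q.1 : V), o.2 + (q.2 : V)) ∈ D then (1 : ℝ) else 0) = D.card := by
      intro q
      have h3 : (D.card : ℝ) = ∑ o : V × V, if o ∈ D then (1 : ℝ) else 0 := by
        simp
      rw [h3]
      exact Fintype.sum_equiv (Equiv.addRight (((q.1 : V), (q.2 : V)) : V × V)) _ _ (fun y => rfl)
    rw [sum_congr rfl fun q _ => h2 q, sum_const, card_univ, Fintype.card_prod, nsmul_eq_mul]
    push_cast; ring
  have hle : (Fintype.card W : ℝ) ^ 2 * D.card ≤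
      (Fintype.card V : ℝ) ^ 2 * (4 * (Fintype.card W : ℝ) ^ (2 - (1 : ℝ) / 2 ^ u)) := by
    rw [← hsum]
    refine (sum_le_sum fun o _ => hbound o).trans (le_of_eq ?_)
    rw [sum_const, card_univ, Fintype.card_prod, nsmul_eq_mul]
    push_cast; ring
  have hpow : (Fintype.card W : ℝ) ^ (2 - (1 : ℝ) / 2 ^ u) =
      (Fintype.card W : ℝ) ^ 2 * (Fintype.card W : ℝ) ^ (-(1 : ℝ) / 2 ^ u) := by
    have : (2 : ℝ) - (1 : ℝ) / 2 ^ u = (2 : ℕ) + (-(1 : ℝ) / 2 ^ u) := by push_cast; ring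
    rw [this, Real.rpow_add hWpos, Real.rpow_natCast]
  rw [hpow] at hle
  rw [hWc]
  have h2 : (0 : ℝ) < (Fintype.card W : ℝ) ^ 2 := by positivity
  have : (Fintype.card W : ℝ) ^ 2 * (D.card : ℝ) ≤ (Fintype.card W : ℝ) ^ 2 *
      (4 * (Fintype.card V : ℝ) ^ 2 * (Fintype.card W : ℝ) ^ (-(1 : ℝ) / 2 ^ u)) := by
    refine hle.trans (le_of_eq ?_); ring
  exact le_of_mul_le_mul_left this h2

end cells

/-- For each `δ > 0` a `u` as needed exists, by the corners theorem. -/
lemma exists_small (δ : ℝ) (hδ : 0 < δ) : ∃ u : ℕ, Small (u + 1) δ := by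
  classical
  refine ⟨cornersTheoremBound δ, fun B hB => ?_⟩
  by_contra hcon
  push Not at hcon
  have hcard : Fintype.card (Fin (cornersTheoremBound δ + 1) → ZMod 2) =
      2 ^ (cornersTheoremBound δ + 1) := by simp [ZMod.card]
  refine corners_theorem δ hδ ?_ B ?_ ?_
  · rw [hcard]
    exact (Nat.lt_two_pow_self).le.trans (Nat.pow_le_pow_right (by norm_num) (Nat.le_succ _))
  · rw [hcard]
    push_cast
    refine le_trans (le_of_eq ?_) hcon
    rw [← pow_mul, mul_comm _ 2, pow_mul]; norm_num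
  · intro x1 y1 x2 y2 hc
    by_contra hne
    refine hB x1 y1 (x2 - x1) (sub_ne_zero.2 (Ne.symm hne)) ⟨?_, ?_, ?_⟩
    · exact_mod_cast hc.fst_fst_mem
    · have : y1 + (x2 - x1) = y2 := by
        calc y1 + (x2 - x1) = (x2 + y1) - x1 := by abel
          _ = (x1 + y2) - x1 := by rw [← hc.add_eq_add]
          _ = y2 := by abel
      rw [this]
      exact_mod_cast hc.fst_snd_mem
    · have : x1 + (x2 - x1) = x2 := by abel
      rw [this]
      exact_mod_cast hc.snd_fst_mem

end Pool.Agent.P8H93.DL
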