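import Pool.Agent.H.MP_f0eba7_co.Main

set_option autoImplicit false

/-!
# Complete bipartite graphs `K_{Aa,Ab}` (`A` even, `a ≤ b` odd) are not proportionally
`A(a+b)/2`-choosable
-/

namespace Pool.Agent.P8H93.PC

open Finset Pool.Agent.H.MP_f66848_co

/-! ### Counting residues -/

theorem count_shift (N q y : ℕ) (hq : q ≤ N) :
    ((range N).filter (fun r => (y + r) % N < q)).card = q := by
  rw [← Nat.count_eq_card_filter_range]
  induction y with
  | zero =>
    rw [Nat.count_eq_card_filter_range]
    have : (range N).filter (fun r => (0 + r) % N < q) = range q := by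
      ext x
      simp only [mem_filter, mem_range, zero_add]
      constructor
      · rintro ⟨h1, h2⟩
        rwa [Nat.mod_eq_of_lt h1] at h2
      · intro h
        have h1 : x < N := lt_of_lt_of_le h hq
        exact ⟨h1, by rwa [Nat.mod_eq_of_lt h1]⟩
    rw [this, card_range]
  | succ y ih =>
    have h1 := Nat.count_succ (fun r => (y + r) % N < q) N
    have h2 := Nat.count_add (fun r => (y + r) % N < q) 1 N
    have h3 : (fun k => (y + (1 + k)) % N < q) = (fun r => (y + 1 + r) % N < q) := by
      funext k; rw [← add_assoc]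
    simp only [h3] at h2
    rw [add_comm 1 N, h1, ih] at h2
    have h4 : (y + N) % N = (y + 0) % N := by rw [Nat.add_mod_right, add_zero]
    have h5 : Nat.count (fun r => (y + r) % N < q) 1 = if (y + 0) % N < q then 1 else 0 := by
      rw [Nat.count_succ]; simp
    rw [h4, h5] at h2
    omega

theorem count_mul (N q r A : ℕ) (hq : q ≤ N) :
    ((range (A * N)).filter (fun y => (y + r) % N < q)).card = A * q := by
  rw [← Nat.count_eq_card_filter_range]
  have h1 := count_shift N q r hq
  rw [← Nat.count_eq_card_filter_range] at h1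
  have h2 : (fun y => (y + r) % N < q) = (fun y => (r + y) % N < q) := by
    funext k; rw [add_comm]
  induction A with
  | zero => simp
  | succ A ih =>
    rw [Nat.succ_mul, Nat.count_add, ih]
    have h3 : (fun k => (A * N + k + r) % N < q) = (fun y => (y + r) % N < q) := by
      funext k
      rw [show A * N + k + r = k + r + N * A by ring, Nat.add_mul_mod_self_left]
    simp only [h3, h2, h1]
    ring

/-! ### The obstruction -/

theorem floor_ceil (a b : ℕ) (hb : 0 < b) (x : ℕ)
    (h : x = ⌊((a * b : ℕ) : ℚ) / b⌋₊ ∨ x = ⌈((a * b : ℕ) : ℚ) / b⌉₊) : x = a := by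
  have hb' : (b : ℚ) ≠ 0 := by positivity
  have : ((a * b : ℕ) : ℚ) / b = (a : ℚ) := by push_cast; field_simp
  rw [this] at h
  simpa using h

theorem no_colouring {V : Type} [Fintype V] [DecidableEq V] (G : SimpleGraph V) (k : ℕ) (hk : 1 ≤ k)
    (P : Finset V) (hG : ∀ u ∈ P, ∀ v, v ∉ P → G.Adj u v) (hV : Fintype.card V = 2 * k)
    (L : V → Finset ℕ) (H M T : Finset ℕ) (hHM : Disjoint H M)
    (mH : ∀ c ∈ H, mult L c = 2 * k) (mM : ∀ c ∈ M, mult L c = 1 * k)
    (LP : ∀ v ∈ P, L v ⊆ H ∪ T) (Lv : ∀ v, v ∉ P → L v ⊆ H ∪ M) (hMT : Disjoint M T)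
    (hodd : Odd (P.card + (2 * k - (2 * H.card + M.card))))
    (f : V → ℕ) (hf : IsProportional G k L f) : False := by
  obtain ⟨h1, h2, h3⟩ := hf
  have pal : ∀ c, 1 ≤ mult L c → ∃ v, c ∈ L v := by
    intro c hc
    obtain ⟨v, hv⟩ := card_pos.1 hc
    exact ⟨v, (mem_filter.1 hv).2⟩
  have cH : ∀ c ∈ H, cnt f c = 2 := by
    intro c hc
    have e := h3 c (pal c (by rw [mH c hc]; omega))
    rw [mH c hc] at e
    exact floor_ceil 2 k (by omega) _ e
  have cM : ∀ c ∈ M, cnt f c = 1 := by
    intro c hc
    have e := h3 c (pal c (by rw [mM c hc]; omega))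
    rw [mM c hc] at e
    exact floor_ceil 1 k (by omega) _ e
  -- the number of vertices coloured from `H ∪ M`
  have hS : (univ.filter (fun v => f v ∈ H ∪ M)).card = 2 * H.card + M.card := by
    have e : (univ.filter (fun v => f v ∈ H ∪ M)).card = ∑ c ∈ H ∪ M, cnt f c := by
      rw [card_eq_sum_card_fiberwise (f := f) (s := univ.filter (fun v => f v ∈ H ∪ M)) (t := H ∪ M)
        (fun v hv => mem_coe.2 (mem_filter.1 (mem_coe.1 hv)).2)]
      refine sum_congr rfl (fun c hc => ?_)
      unfold cnt
      congr 1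
      ext v
      simp only [mem_filter, mem_univ, true_and]
      exact ⟨fun h => h.2, fun h => ⟨h ▸ hc, h⟩⟩
    rw [e, sum_union hHM, sum_congr rfl cH, sum_congr rfl cM]
    simp only [sum_const, smul_eq_mul]
    ring
  have hC : (univ.filter (fun v => ¬ f v ∈ H ∪ M)).card = 2 * k - (2 * H.card + M.card) := by
    have := card_filter_add_card_filter_not (s := (univ : Finset V)) (fun v => f v ∈ H ∪ M)
    rw [hS, card_univ, hV] at this
    omega
  -- all of them lie in `P`
  have hP : univ.filter (fun v => ¬ f v ∈ H ∪ M) = P.filter (fun v => f v ∉ H) := by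
    ext v
    simp only [mem_filter, mem_univ, true_and]
    constructor
    · intro h
      have hvP : v ∈ P := by
        by_contra hc
        exact h (Lv v hc (h1 v))
      exact ⟨hvP, fun h' => h (mem_union_left _ h')⟩
    · rintro ⟨hv, h⟩ h'
      rcases mem_union.1 h' with h'' | h''
      · exact h h''
      · rcases mem_union.1 (LP v hv (h1 v)) with h3 | h3
        · exact h h3
        · exact disjoint_left.1 hMT h'' h3
  have hev : Even (P.filter (fun v => f v ∈ H)).card := by
    rw [card_eq_sum_card_fiberwise (f := f) (s := P.filter (fun v => f v ∈ H)) (t := H)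
        (fun v hv => mem_coe.2 (mem_filter.1 (mem_coe.1 hv)).2)]
    refine even_sum _ (fun c hc => ?_)
    by_cases he : ((P.filter (fun v => f v ∈ H)).filter (fun v => f v = c)) = ∅
    · rw [he]; simp
    · obtain ⟨u, hu⟩ := nonempty_iff_ne_empty.2 he
      have hu1 := (mem_filter.1 (mem_filter.1 hu).1).1
      have hu2 := (mem_filter.1 hu).2
      have : (P.filter (fun v => f v ∈ H)).filter (fun v => f v = c) =
          univ.filter (fun v => f v = c) := by
        ext v
        simp only [mem_filter, mem_univ, true_and]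
        constructor
        · exact fun h => h.2
        · intro h
          refine ⟨⟨?_, h ▸ hc⟩, h⟩
          by_contra hv
          exact h2 u v (hG u hu1 v hv) (hu2.trans h.symm)
      rw [this]
      have := cH c hc
      unfold cnt at this
      rw [this]
      exact even_two
  have hsum := card_filter_add_card_filter_not (s := P) (fun v => f v ∈ H)
  rw [← hP, hC] at hsum
  rw [← hsum] at hodd
  have h4 : Even ((P.filter (fun v => f v ∈ H)).card + (2 * k - (2 * H.card + M.card)) +
      (2 * k - (2 * H.card + M.card))) := by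
    rw [add_assoc]
    exact hev.add (Even.add_self _)
  exact (Nat.not_even_iff_odd.2 hodd) h4

/-! ### The graphs `K_{n,m}` -/

/-- The vertices. -/
abbrev VG (n m : ℕ) : Type := Σ i : Fin 2, Fin (![n, m] i)

/-- The complete bipartite graph with parts of sizes `n` and `m`. -/
abbrev KG (n m : ℕ) : SimpleGraph (VG n m) :=
  SimpleGraph.completeMultipartiteGraph (fun i => Fin (![n, m] i))

def p0 (n m : ℕ) (y : Fin n) : VG n m := ⟨0, y⟩
def p1 (n m : ℕ) (y : Fin m) : VG n m := ⟨1, y⟩

theorem cases_v (n m : ℕ) (v : VG n m) : (∃ y, v = p0 n m y) ∨ (∃ y, v = p1 n m y) := by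
  obtain ⟨i, y⟩ := v
  have hi : i = 0 ∨ i = 1 := by
    have : ∀ i : Fin 2, i = 0 ∨ i = 1 := by decide
    exact this i
  rcases hi with rfl | rfl
  · exact Or.inl ⟨y, rfl⟩
  · exact Or.inr ⟨y, rfl⟩

theorem card_split (n m : ℕ) (p : VG n m → Prop) [DecidablePred p] :
    (univ.filter p).card = (univ.filter (fun y => p (p0 n m y))).card +
      (univ.filter (fun y => p (p1 n m y))).card := by
  have : univ.filter p = (univ : Finset (Fin 2)).sigma
      (fun i => univ.filter (fun y : Fin (![n, m] i) => p ⟨i, y⟩)) := by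
    ext ⟨i, y⟩; simp
  rw [this, card_sigma, Fin.sum_univ_two]
  rfl

theorem card_V (n m : ℕ) : Fintype.card (VG n m) = n + m := by
  rw [← card_univ, ← filter_true_of_mem (s := (univ : Finset (VG n m))) (p := fun _ => True)
    (fun _ _ => trivial), card_split]
  simp

theorem card_fin (m : ℕ) (p : ℕ → Prop) [DecidablePred p] :
    (univ.filter (fun y : Fin m => p y)).card = ((range m).filter p).card := by
  rw [card_filter, card_filter, Fin.sum_univ_eq_sum_range (fun y => if p y then 1 else 0) m]

/-- The lists of the vertices of the large part: `h` heavy colours and `q` of `N` medium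
colours. -/
def lst (h q N y : ℕ) : Finset ℕ := range h ∪ ((range N).filter
    (fun r => (y + r) % N < q)).image (fun r => h + q + r)

/-- The bad assignment. -/
def bad (h q N : ℕ) {n m : ℕ} (v : VG n m) : Finset ℕ :=
  if v.1 = 0 then range (h + q) else lst h q N v.2

theorem bad_p0 (h q N n m : ℕ) (y : Fin n) : bad h q N (p0 n m y) = range (h + q) := if_pos rfl

theorem bad_p1 (h q N n m : ℕ) (y : Fin m) : bad h q N (p1 n m y) = lst h q N y :=
  if_neg (by simp [p1])

theorem mem_lst (h q N c y : ℕ) :
    c ∈ lst h q N y ↔ c < h ∨ (h + q ≤ c ∧ c - (h + q) < N ∧ (y + (c - (h + q))) % N < q) := by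
  unfold lst
  simp only [mem_union, mem_range, mem_image, mem_filter]
  constructor
  · rintro (h | ⟨r, ⟨h1, h2⟩, rfl⟩)
    · exact Or.inl h
    · right
      rw [Nat.add_sub_cancel_left]
      exact ⟨by omega, h1, h2⟩
  · rintro (h | ⟨h1, h2, h3⟩)
    · exact Or.inl h
    · exact Or.inr ⟨_, ⟨h2, h3⟩, by omega⟩

theorem bad_card (h q N n m : ℕ) (hq : q ≤ N) (v : VG n m) : (bad h q N v).card = h + q := by
  rcases cases_v n m v with ⟨y, rfl⟩ | ⟨y, rfl⟩
  · rw [bad_p0, card_range]
  · rw [bad_p1, lst, card_union_of_disjoint, card_range,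
      card_image_of_injective _ (add_right_injective _), count_shift _ _ _ hq]
    rw [disjoint_left]
    intro c h1 h2
    obtain ⟨r, -, rfl⟩ := mem_image.1 h2
    have := mem_range.1 h1
    omega

theorem not_choosable (A a b : ℕ) (hA : Even A) (hA2 : 2 ≤ A) (ha : Odd a) (hb : Odd b)
    (hab : a ≤ b) : ¬ PropChoosable (KG (A * a) (A * b)) (A * ((a + b) / 2)) := by
  classical
  obtain ⟨q, hq⟩ : ∃ q, q = (a + b) / 2 := ⟨_, rfl⟩
  have hab2 : a + b = 2 * q := by
    obtain ⟨x, hx⟩ := ha
    obtain ⟨y, hy⟩ := hb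
    omega
  have hq1 : 1 ≤ q := by
    obtain ⟨x, hx⟩ := ha
    omega
  have hqb : q ≤ b := by omega
  rw [← hq]
  obtain ⟨h, hh⟩ : ∃ h, h = (A - 1) * q := ⟨_, rfl⟩
  have hk : A * q = h + q := by
    rw [hh]
    obtain ⟨B, rfl⟩ : ∃ B, A = B + 1 := ⟨A - 1, by omega⟩
    rw [Nat.add_sub_cancel]; ring
  have hV : A * a + A * b = 2 * (A * q) := by
    rw [← mul_add, hab2]; ring
  intro hch
  obtain ⟨f, hf⟩ := hch (bad h q b) (fun v => by rw [hk]; exact bad_card h q b _ _ hqb v)
  have e01 : ∀ y, p0 (A * a) (A * b) y ∈ univ.filter (fun v : VG (A * a) (A * b) => v.1 = 0) := by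
    intro y; simp [p0]
  have n01 : ∀ y, p1 (A * a) (A * b) y ∉ univ.filter (fun v : VG (A * a) (A * b) => v.1 = 0) := by
    intro y; simp [p1]
  refine no_colouring (KG (A * a) (A * b)) (A * q) (by rw [hk]; omega)
    (univ.filter (fun v => v.1 = 0)) ?_ (by rw [card_V]; exact hV) (bad h q b) (range h)
    ((range b).image (fun r => h + q + r)) (Ico h (h + q)) ?_ ?_ ?_ ?_ ?_ ?_ ?_ f hf
  · intro u hu v hv
    have hu := (mem_filter.1 hu).2
    have hv' : v.1 ≠ 0 := fun e => hv (mem_filter.2 ⟨mem_univ _, e⟩)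
    exact fun e => hv' (e.symm.trans hu)
  · rw [disjoint_left]
    intro c h1 h2
    obtain ⟨r, -, rfl⟩ := mem_image.1 h2
    have := mem_range.1 h1
    omega
  · intro c hc
    have hc := mem_range.1 hc
    unfold mult
    rw [filter_true_of_mem, card_univ, card_V, hV]
    · intro v _
      rcases cases_v _ _ v with ⟨y, rfl⟩ | ⟨y, rfl⟩
      · rw [bad_p0, mem_range]; omega
      · rw [bad_p1, mem_lst]; exact Or.inl hc
  · intro c hc
    obtain ⟨r, hr, rfl⟩ := mem_image.1 hc
    have hr := mem_range.1 hr
    unfold mult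
    rw [card_split]
    have e0 : (univ.filter (fun y : Fin (A * a) => h + q + r ∈ bad h q b (p0 (A * a) (A * b) y)))
        = ∅ := by
      rw [filter_eq_empty_iff]
      intro y _ h
      rw [bad_p0, mem_range] at h
      omega
    have e1 : (univ.filter (fun y : Fin (A * b) => h + q + r ∈ bad h q b (p1 (A * a) (A * b) y))) =
        (univ.filter (fun y : Fin (A * b) => ((y : ℕ) + r) % b < q)) := by
      apply filter_congr
      intro y _
      rw [bad_p1, mem_lst, Nat.add_sub_cancel_left]
      constructor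
      · rintro (h | h)
        · omega
        · exact h.2.2
      · intro h
        exact Or.inr ⟨by omega, hr, h⟩
    rw [e0, e1, card_empty, zero_add, card_fin (A * b) (fun y => (y + r) % b < q),
      count_mul b q r A hqb, one_mul]
  · intro v hv c hc
    rcases cases_v _ _ v with ⟨y, rfl⟩ | ⟨y, rfl⟩
    · rw [bad_p0, mem_range] at hc
      simp only [mem_union, mem_range, mem_Ico]
      omega
    · exact absurd hv (n01 y)
  · intro v hv c hc
    rcases cases_v _ _ v with ⟨y, rfl⟩ | ⟨y, rfl⟩
    · exact absurd (e01 y) hv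
    · rw [bad_p1, mem_lst] at hc
      rcases hc with h | ⟨h2, h3, h4⟩
      · exact mem_union_left _ (mem_range.2 h)
      · exact mem_union_right _ (mem_image.2 ⟨c - (h + q), mem_range.2 h3, by omega⟩)
  · rw [disjoint_left]
    intro c h1 h2
    obtain ⟨r, -, rfl⟩ := mem_image.1 h1
    have := mem_Ico.1 h2
    omega
  · rw [card_range, card_image_of_injective _ (add_right_injective _), card_range,
      card_split _ _ (fun v => v.1 = 0)]
    have : 2 * (A * q) - (2 * h + b) = a := by omega
    rw [this]
    have e1 : (univ.filter (fun y => (p0 (A * a) (A * b) y).1 = 0)).card = A * a := by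
      simp [p0]
    have e2 : (univ.filter (fun y => (p1 (A * a) (A * b) y).1 = 0)).card = 0 := by
      simp [p1]
    rw [e1, e2, add_zero]
    exact (hA.mul_right a).add_odd ha

theorem choosable (m k : ℕ) (hk : m + 4 ≤ 2 * k) : PropChoosable (KG 2 m) k := by
  classical
  refine Pool.Agent.H.MP_f0eba7_co.upper (KG 2 m) (A := univ.filter (fun v => v.1 = 0)) ?_ ?_ ?_
  · exact ⟨p0 2 m 0, by simp [p0]⟩
  · intro u v h
    simp only [mem_filter, mem_univ, true_and]
    rcases cases_v 2 m u with ⟨x, rfl⟩ | ⟨x, rfl⟩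
    · exact Or.inl rfl
    · rcases cases_v 2 m v with ⟨y, rfl⟩ | ⟨y, rfl⟩
      · exact Or.inr rfl
      · simp [p1] at h
  · rw [card_V, card_split 2 m (fun v => v.1 = 0)]
    simp [p0, p1]
    omega

end Pool.Agent.P8H93.PC
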